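import Pool.Agent.Helper71.Dil.WEYL
import Pool.Agent.Helper55.Dil.HOL
import Pool.Agent.Helper37.Dil.Vnot

/-!
# Module S_SOL: existence of solutions
-/

open Topology Set Filter MeasureTheory Metric

namespace Pool.Agent.Helper13.Dil

open Pool.Agent.Helper73.Dil

open Pool.Agent.Helper73.Dil.DilationSurface

universe u

/-- derivative of the real part of a holomorphic function of `x + t y` -/
theorem sol_hasFDerivAt {t : ℂ} {w : ℂ → ℂ} {z : ℂ} (hw : DifferentiableAt ℂ w (tc t z)) :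
    HasFDerivAt (fun z : ℂ => (((w (tc t z)).re : ℝ) : ℂ))
      ((Complex.ofRealCLM.comp Complex.reCLM).comp
        ((deriv w (tc t z)) • (Pool.Agent.Helper71.Dil.tcL t))) z := by
  have h1 : HasFDerivAt (tc t) (Pool.Agent.Helper71.Dil.tcL t) z := by
    rw [← Pool.Agent.Helper71.Dil.tcL_coe]
    exact (Pool.Agent.Helper71.Dil.tcL t).hasFDerivAt
  have h2 : HasFDerivAt (fun z : ℂ => w (tc t z))
      ((deriv w (tc t z)) • (Pool.Agent.Helper71.Dil.tcL t)) z := by
    have := (hw.hasDerivAt.hasFDerivAt.restrictScalars ℝ).comp z h1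
    refine this.congr_fderiv ?_
    ext v
    simp [mul_comm]
  exact (Complex.ofRealCLM.comp Complex.reCLM).hasFDerivAt.comp z h2

theorem sol_contDiffOn {t : ℂ} (ht : t ∈ UH) {w : ℂ → ℂ}
    (hw : DifferentiableOn ℂ w (tc t '' B1)) :
    ContDiffOn ℝ 1 (fun z : ℂ => (((w (tc t z)).re : ℝ) : ℂ)) B1 := by
  have h1 : ContDiffOn ℂ 1 w (tc t '' B1) := hw.contDiffOn (Pool.Agent.Helper55.Dil.tc_open ht)
  have h2 : ContDiffOn ℝ 1 w (tc t '' B1) := h1.restrict_scalars ℝ
  have h3 : ContDiffOn ℝ 1 (fun z => w (tc t z)) B1 :=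
    h2.comp (Pool.Agent.Helper71.Dil.tc_contDiff t).contDiffOn fun z hz => ⟨z, hz, rfl⟩
  exact (Complex.ofRealCLM.comp Complex.reCLM).contDiff.comp_contDiffOn h3

theorem sb_SOL (hWEYL : ST_WEYL) (hWCL : SB_WCL.{u}) (hLOCL : SB_LOCL.{u})
    (hLOCG : SB_LOCG.{u}) (hPOT : SB_POT.{u}) : SB_SOL.{u} := by
  intro X _ _ _ _ _ _ D R S A t c hA ht hc
  have hA0 := hA
  obtain ⟨hAE, hV, hJ⟩ := hA
  have hmB : MeasurableSet B1 := by rw [B1]; exact measurableSet_ball
  have hto := Pool.Agent.Helper55.Dil.tc_open ht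
  -- scalar multiples
  have hsm : ∀ b, D.IsBall b → R.loc b (t • c : R.H) =ᵐ[volume.restrict B1]
      fun z => t * R.loc b c z := by
    intro b hb
    obtain ⟨L, -, -, hL3⟩ := (hLOCL X D R).1 b hb
    have h3 := hL3 (t • c) (fun x => t * c x) (by
      filter_upwards [Lp.coeFn_smul t c] with x hx
      rw [hx]
      rfl)
    refine h3.trans (Eventually.of_forall fun z => ?_)
    simp only [Ref.loc]
    ring
  -- local primitives
  have hloc : ∀ b, D.IsBall b → ∃ w : ℂ → ℂ, DifferentiableOn ℂ w (tc t '' B1) ∧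
      R.loc b c =ᵐ[volume.restrict B1] fun z => deriv w (tc t z) := by
    intro b hb
    obtain ⟨L, hL1, -, hL3⟩ := (hLOCL X D R).1 b hb
    have hW : WClosed (R.loc b c) (fun z => t * R.loc b c z) := by
      have h1 := hWCL X D R S A hA0 (c, t • c) (fun ε hε => hc.1 ε hε) b hb
      intro a ha
      rw [← h1 a ha]
      refine integral_congr_ae ?_
      filter_upwards [hsm b hb] with z hz2
      rw [hz2]
    have hmem : MemLp (R.loc b c) 2 (volume.restrict B1) :=
      (memLp_congr_ae (hL1 c)).mp (Lp.memLp (L c))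
    obtain ⟨h, hh, hhc⟩ := hWEYL t (R.loc b c) ht hmem hW
    obtain ⟨w, hw⟩ := (Pool.Agent.Helper55.Dil.tc_convex t).exists_forall_hasDerivWithinAt hh
    have hw' : ∀ a ∈ tc t '' B1, HasDerivAt w (h a) a := fun a ha =>
      (hw a ha).hasDerivAt (hto.mem_nhds ha)
    refine ⟨w, fun a ha => (hw' a ha).differentiableAt.differentiableWithinAt, ?_⟩
    have hhc' := hhc
    rw [Filter.EventuallyEq, ae_restrict_iff' hmB] at hhc' ⊢
    filter_upwards [hhc'] with z hz hzB
    rw [hz hzB]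
    exact ((hw' _ ⟨z, hzB, rfl⟩).deriv).symm
  choose! w hw hwc using hloc
  -- the exact form
  set α : R.H × R.H := (1 / 2 : ℂ) • (c + A.J.c c, t • c + A.J.c (t • c)) - A.v with hα
  have hαE : α ∈ R.E := by
    rw [← hAE]
    exact hc.2
  have e1 : (α.1 : R.H) =ᵐ[R.mu] fun x => (1 / 2 : ℂ) * (c x + (starRingEnd ℂ) (c x)) -
      R.gx (fun e x => (S.u e x : ℂ)) x := by
    have hα1 : α.1 = (1 / 2 : ℂ) • (c + A.J.c c) - A.v.1 := rfl
    rw [hα1]
    filter_upwards [Lp.coeFn_sub ((1 / 2 : ℂ) • (c + A.J.c c)) A.v.1,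
      Lp.coeFn_smul (1 / 2 : ℂ) (c + A.J.c c), Lp.coeFn_add c (A.J.c c), hJ c, hV.1]
      with x h1 h2 h3 h4 h5
    rw [h1, Pi.sub_apply, h2, Pi.smul_apply, h3, Pi.add_apply, h4, h5, smul_eq_mul]
  have e2 : (α.2 : R.H) =ᵐ[R.mu] fun x => (1 / 2 : ℂ) * (t * c x + (starRingEnd ℂ) (t * c x)) -
      R.gy (fun e x => (S.u e x : ℂ)) x := by
    have hα1 : α.2 = (1 / 2 : ℂ) • (t • c + A.J.c (t • c)) - A.v.2 := rfl
    rw [hα1]
    filter_upwards [Lp.coeFn_sub ((1 / 2 : ℂ) • (t • c + A.J.c (t • c))) A.v.2,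
      Lp.coeFn_smul (1 / 2 : ℂ) (t • c + A.J.c (t • c)), Lp.coeFn_add (t • c) (A.J.c (t • c)),
      hJ (t • c), hV.2, Lp.coeFn_smul t c]
      with x h1 h2 h3 h4 h5 h6
    rw [h1, Pi.sub_apply, h2, Pi.smul_apply, h3, Pi.add_apply, h4, h5, smul_eq_mul, h6,
      Pi.smul_apply, smul_eq_mul]
  obtain ⟨κ, hκ⟩ := hPOT X D R α
    (fun b z => (((w b (tc t z)).re : ℝ) : ℂ) - (S.u b (b.symm z) : ℂ)) hαE (by
    intro b hb
    obtain ⟨L, -, -, hL3⟩ := (hLOCL X D R).1 b hb
    -- smoothness of the scale function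
    have hsu : ∀ z ∈ B1, ContDiffAt ℝ (⊤ : ℕ∞) (fun z => (S.u b (b.symm z) : ℂ)) z := by
      intro z hz
      have hz' : z ∈ b.target := by rw [hb.2]; exact hz
      have h1 := S.smooth b hb.1 (b.symm z) (b.map_target hz')
      rw [b.right_inv hz'] at h1
      exact h1
    have hsud : ∀ z ∈ B1, DifferentiableAt ℝ (fun z => (S.u b (b.symm z) : ℂ)) z := fun z hz =>
      (hsu z hz).differentiableAt (by simp)
    have hwd : ∀ z ∈ B1, DifferentiableAt ℂ (w b) (tc t z) := fun z hz =>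
      (hw b hb _ ⟨z, hz, rfl⟩).differentiableAt (hto.mem_nhds ⟨z, hz, rfl⟩)
    have hfd : ∀ z ∈ B1, ∀ v, fderiv ℝ (fun z => (((w b (tc t z)).re : ℝ) : ℂ) -
        (S.u b (b.symm z) : ℂ)) z v = (((deriv (w b) (tc t z) * tc t v).re : ℝ) : ℂ) -
          fderiv ℝ (fun z => (S.u b (b.symm z) : ℂ)) z v := by
      intro z hz v
      have h1 := (sol_hasFDerivAt (hwd z hz)).sub (hsud z hz).hasFDerivAt
      have h2 : fderiv ℝ (fun z => (((w b (tc t z)).re : ℝ) : ℂ) -
        (S.u b (b.symm z) : ℂ)) z = _ := h1.fderiv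
      rw [h2]
      simp only [ContinuousLinearMap.sub_apply, ContinuousLinearMap.comp_apply,
        ContinuousLinearMap.smul_apply, Pool.Agent.Helper71.Dil.tcL_apply, smul_eq_mul,
        Complex.reCLM_apply, Complex.ofRealCLM_apply]
    have hre : ∀ q : ℂ, (1 / 2 : ℂ) * (q + (starRingEnd ℂ) q) = ((q.re : ℝ) : ℂ) := by
      intro q
      rw [Complex.add_conj]
      push_cast
      ring
    refine ⟨?_, ?_, ?_⟩
    · refine (sol_contDiffOn ht (hw b hb)).sub ?_
      intro z hz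
      exact ((hsu z hz).of_le (by exact_mod_cast le_top)).contDiffWithinAt
    · refine (hL3 α.1 _ e1).trans ?_
      have h1 := hwc b hb
      rw [Filter.EventuallyEq, ae_restrict_iff' hmB] at h1 ⊢
      filter_upwards [h1] with z hz hzB
      have hG := (hLOCG X D R (vnotTwist S) b hb z hzB).1
      have hz1 := hz hzB
      simp only [Ref.loc] at hG hz1 ⊢
      unfold dx
      rw [hfd z hzB, Pool.Agent.Helper71.Dil.tc_one, mul_one, ← hz1, ← hre]
      have hG' : (rat b (R.ch (b.symm z)) (b.symm z) : ℂ) * R.gx (fun e x => (S.u e x : ℂ))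
          (b.symm z) = fderiv ℝ (fun z => (S.u b (b.symm z) : ℂ)) z 1 := hG
      rw [← hG', map_mul, Complex.conj_ofReal]
      ring
    · refine (hL3 α.2 _ e2).trans ?_
      have h1 := hwc b hb
      rw [Filter.EventuallyEq, ae_restrict_iff' hmB] at h1 ⊢
      filter_upwards [h1] with z hz hzB
      have hG := (hLOCG X D R (vnotTwist S) b hb z hzB).2
      have hz1 := hz hzB
      simp only [Ref.loc] at hG hz1 ⊢
      unfold dy
      rw [hfd z hzB, Pool.Agent.Helper71.Dil.tc_I, ← hz1, ← hre]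
      have hG' : (rat b (R.ch (b.symm z)) (b.symm z) : ℂ) * R.gy (fun e x => (S.u e x : ℂ))
          (b.symm z) = fderiv ℝ (fun z => (S.u b (b.symm z) : ℂ)) z Complex.I := hG
      rw [← hG', map_mul, map_mul, map_mul, Complex.conj_ofReal]
      ring)
  refine ⟨fun x => (κ x).re, fun b hb => ?_⟩
  obtain ⟨k, hk⟩ := hκ b hb
  refine ⟨fun z => w b z + (k.re : ℂ), (hw b hb).add_const _, ?_, ?_⟩
  · refine (hwc b hb).trans (Eventually.of_forall fun z => ?_)
    simp only
    rw [deriv_add_const]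
  · intro z hz
    have h1 := hk z hz
    simp only at h1 ⊢
    rw [h1, Complex.add_re, Complex.sub_re, Complex.ofReal_re, Complex.ofReal_re, Complex.add_re,
      Complex.ofReal_re]
    ring

end Pool.Agent.Helper13.Dil
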