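import Pool.Agent.Helper73.Dil.Pure

open Topology Set Filter MeasureTheory Metric

namespace Pool.Agent.Helper13.Dil

open Pool.Agent.Helper73.Dil

theorem b1_open : IsOpen B1 := isOpen_ball

theorem zero_out {a : ℂ → ℂ} {z : ℂ} (hz : z ∉ tsupport a) : a z = 0 :=
  image_eq_zero_of_notMem_tsupport hz

theorem fderiv_out {a : ℂ → ℂ} {z : ℂ} (hz : z ∉ tsupport a) (v : ℂ) :
    fderiv ℝ a z v = 0 := by
  have h : fderiv ℝ a z = 0 := by
    have h1 : z ∉ tsupport (fderiv ℝ a) := fun h => hz (tsupport_fderiv_subset ℝ h)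
    exact image_eq_zero_of_notMem_tsupport h1
  rw [h]
  rfl

/-- products of a function continuous on the disc and a function supported inside -/
theorem int_prod {f g a : ℂ → ℂ} (ha : PTest a) (hf : ContinuousOn f B1) (hg : Continuous g)
    (h0 : ∀ z, z ∉ tsupport a → g z = 0) : Integrable (fun z => f z * g z) := by
  have hsub : tsupport (fun z => f z * g z) ⊆ tsupport a := by
    refine closure_minimal ?_ (isClosed_tsupport a)
    intro z hz
    by_contra hcon
    exact hz (by simp [h0 z hcon])
  have hcont : Continuous (fun z => f z * g z) := by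
    refine continuous_of_tsupport fun z hz => ?_
    have hzB : z ∈ B1 := ha.2.2 (hsub hz)
    exact (hf.continuousAt (b1_open.mem_nhds hzB)).mul hg.continuousAt
  refine hcont.integrable_of_hasCompactSupport ?_
  exact IsCompact.of_isClosed_subset ha.2.1 (isClosed_tsupport _) hsub

theorem part_one {f a : ℂ → ℂ} (ha : PTest a) (hf : ContDiffOn ℝ 1 f B1) (v : ℂ) :
    ∫ z, f z * fderiv ℝ a z v = - ∫ z, fderiv ℝ f z v * a z := by
  have hadiff : Differentiable ℝ a := ha.1.differentiable (by simp)
  have hfd : ContinuousOn (fun z => fderiv ℝ f z v) B1 := by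
    have h1 : ContinuousOn (fderiv ℝ f) B1 := hf.continuousOn_fderiv_of_isOpen b1_open le_rfl
    exact h1.clm_apply continuousOn_const
  have hda : Continuous (fun z => fderiv ℝ a z v) := by
    have h1 : Continuous (fderiv ℝ a) := ha.1.continuous_fderiv (by simp)
    exact h1.clm_apply continuous_const
  refine integral_mul_fderiv_eq_neg_fderiv_mul_of_integrable ?_ ?_ ?_ ?_ ?_
  · exact int_prod ha hfd ha.1.continuous fun z hz => zero_out hz
  · exact int_prod ha hf.continuousOn hda fun z hz => fderiv_out hz v
  · exact int_prod ha hf.continuousOn ha.1.continuous fun z hz => zero_out hz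
  · intro x hx
    exact (hf.differentiableOn (by simp)).differentiableAt (b1_open.mem_nhds (ha.2.2 hx))
  · intro x _
    exact hadiff x

theorem st_STOKES : ST_STOKES := by
  intro u a hu ha
  have hu1 : ContDiffOn ℝ 1 (fderiv ℝ u) B1 := by
    refine hu.fderiv_of_isOpen b1_open ?_
    norm_num
  have hx : ContDiffOn ℝ 1 (fun z => dx u z) B1 := by
    exact hu1.clm_apply contDiffOn_const
  have hy : ContDiffOn ℝ 1 (fun z => dy u z) B1 := by
    exact hu1.clm_apply contDiffOn_const
  have hdax : Continuous (fun z => dx a z) := by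
    have h1 : Continuous (fderiv ℝ a) := ha.1.continuous_fderiv (by simp)
    exact h1.clm_apply continuous_const
  have hday : Continuous (fun z => dy a z) := by
    have h1 : Continuous (fderiv ℝ a) := ha.1.continuous_fderiv (by simp)
    exact h1.clm_apply continuous_const
  have e1 := part_one ha hx Complex.I
  have e2 := part_one ha hy 1
  have h0 : ∫ z in B1, (dx u z * dy a z - dy u z * dx a z) =
      ∫ z, (dx u z * dy a z - dy u z * dx a z) := by
    refine setIntegral_eq_integral_of_forall_compl_eq_zero fun z hz => ?_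
    have hz' : z ∉ tsupport a := fun h => hz (ha.2.2 h)
    simp only [dx, dy, fderiv_out hz', mul_zero, sub_zero]
  rw [h0, integral_sub (int_prod ha hx.continuousOn hday fun z hz => fderiv_out hz _)
    (int_prod ha hy.continuousOn hdax fun z hz => fderiv_out hz _)]
  have e1' : ∫ z, dx u z * dy a z = - ∫ z, fderiv ℝ (fun z => dx u z) z Complex.I * a z := e1
  have e2' : ∫ z, dy u z * dx a z = - ∫ z, fderiv ℝ (fun z => dy u z) z 1 * a z := e2
  rw [e1', e2']
  have e3 : (fun z => fderiv ℝ (fun z => dx u z) z Complex.I * a z) =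
      fun z => fderiv ℝ (fun z => dy u z) z 1 * a z := by
    funext z
    by_cases hz : z ∈ tsupport a
    · have hzB : B1 ∈ 𝓝 z := b1_open.mem_nhds (ha.2.2 hz)
      have hd : DifferentiableAt ℝ (fderiv ℝ u) z :=
        (hu1.differentiableOn (by simp)).differentiableAt hzB
      have s1 : fderiv ℝ (fun z => dx u z) z Complex.I = fderiv ℝ (fderiv ℝ u) z Complex.I 1 := by
        have : HasFDerivAt (fun z => dx u z)
            ((ContinuousLinearMap.apply ℝ ℂ (1 : ℂ)).comp (fderiv ℝ (fderiv ℝ u) z)) z :=
          (ContinuousLinearMap.apply ℝ ℂ (1 : ℂ)).hasFDerivAt.comp z hd.hasFDerivAt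
        rw [this.fderiv]
        rfl
      have s2 : fderiv ℝ (fun z => dy u z) z 1 = fderiv ℝ (fderiv ℝ u) z 1 Complex.I := by
        have : HasFDerivAt (fun z => dy u z)
            ((ContinuousLinearMap.apply ℝ ℂ (Complex.I : ℂ)).comp (fderiv ℝ (fderiv ℝ u) z)) z :=
          (ContinuousLinearMap.apply ℝ ℂ (Complex.I : ℂ)).hasFDerivAt.comp z hd.hasFDerivAt
        rw [this.fderiv]
        rfl
      have s3 : fderiv ℝ (fderiv ℝ u) z Complex.I 1 = fderiv ℝ (fderiv ℝ u) z 1 Complex.I := by
        have hc : ContDiffAt ℝ 2 u z := hu.contDiffAt hzB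
        have := hc.isSymmSndFDerivAt (by simp)
        exact this Complex.I 1
      rw [s1, s2, s3]
    · rw [zero_out hz, mul_zero, mul_zero]
  rw [e3]
  simp

end Pool.Agent.Helper13.Dil
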